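import Mathlib

namespace Pool.Agent.Results.MP_f0917b_co.Full
open Finset

/-- Mycielski graph: `some (inl v) = u_v`, `some (inr v) = u'_v`, `none = w`. -/
def Myc {V : Type} (G : SimpleGraph V) : SimpleGraph (Option (V ⊕ V)) where
  Adj
    | some (.inl a), some (.inl b) => G.Adj a b
    | some (.inl a), some (.inr b) => G.Adj a b
    | some (.inr a), some (.inl b) => G.Adj a b
    | some (.inr _), none => True
    | none, some (.inr _) => True
    | _, _ => False
  symm := ⟨by rintro (_ | _ | _) (_ | _ | _) h <;> first | exact h | exact G.adj_symm h⟩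
  loopless := ⟨by rintro (_ | _ | _) h <;> first | exact h | exact G.irrefl h⟩

/-- vertex type of `M^t(G)` -/
def MT : ℕ → Type → Type
  | 0, V => V
  | t + 1, V => Option (MT t V ⊕ MT t V)

/-- `M^t(G)` -/
def MycIt {V : Type} (G : SimpleGraph V) : (t : ℕ) → SimpleGraph (MT t V)
  | 0 => G
  | t + 1 => Myc (MycIt G t)

/-- `f` is an `L(2,1)`-labeling -/
def L21 {V : Type} (G : SimpleGraph V) (f : V → ℕ) : Prop :=
  (∀ u v, G.Adj u v → f u + 2 ≤ f v ∨ f v + 2 ≤ f u) ∧ ∀ u v, G.dist u v = 2 → f u ≠ f v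

def LL {V : Type} (G : SimpleGraph V) (f : V → ℕ) : Prop :=
  (∀ u v, G.Adj u v → f u + 2 ≤ f v ∨ f v + 2 ≤ f u) ∧
    ∀ u v x, u ≠ v → G.Adj u x → G.Adj x v → f u ≠ f v

theorem LL.l21 {V : Type} {G : SimpleGraph V} {f : V → ℕ} (h : LL G f) : L21 G f := by
  refine ⟨h.1, fun u v hd => ?_⟩
  obtain ⟨p, hp⟩ := SimpleGraph.exists_walk_of_dist_ne_zero (G := G) (u := u) (v := v) (by omega)
  rw [hd] at hp
  have hne : u ≠ v := by
    rintro rfl
    simp at hd
  match p, hp with
  | .cons a (.cons b .nil), _ => exact h.2 _ _ _ hne a b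

open Classical in
theorem ore (m : ℕ) (C : ℕ → ℕ → Prop) (sy : ∀ x y, C x y → C y x) (d : ℕ → ℕ)
    (hd : ∀ x, ((range m).filter (C x)).card ≤ d x) (k : ℕ) :
    ∀ σ : ℕ → ℕ, (∀ p < m, σ p < m) → (∀ p < m, ∀ q < m, σ p = σ q → p = q) →
      (∀ p, p + 1 < m → C (σ p) (σ (p + 1)) → d (σ p) + d (σ (p + 1)) + 2 ≤ m) →
      ((range (m - 1)).filter fun p => C (σ p) (σ (p + 1))).card = k →
      ∃ σ' : ℕ → ℕ, σ' 0 = σ 0 ∧ (∀ p < m, σ' p < m) ∧ (∀ p < m, ∀ q < m, σ' p = σ' q → p = q) ∧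
        ∀ p, p + 1 < m → ¬ C (σ' p) (σ' (p + 1)) := by
  induction' k using Nat.strong_induction_on with k ih
  intro σ h1 h2 h3 hk
  by_cases hb : ∀ p, p + 1 < m → ¬ C (σ p) (σ (p + 1))
  · exact ⟨σ, rfl, h1, h2, hb⟩
  push Not at hb
  obtain ⟨i, hi, hc⟩ := hb
  have b1 : ((range m).filter fun j => C (σ i) (σ j)).card ≤ d (σ i) := by
    refine le_trans (card_le_card_of_injOn σ ?_ ?_) (hd _)
    · intro j hj
      simp only [coe_filter, mem_range, Set.mem_setOf_eq] at hj ⊢
      exact ⟨h1 j hj.1, hj.2⟩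
    · intro a ha b hb e
      simp only [coe_filter, mem_range, Set.mem_setOf_eq] at ha hb
      exact h2 a ha.1 b hb.1 e
  have b2 : ((range m).filter fun j => j + 1 < m ∧ C (σ (i + 1)) (σ (j + 1))).card ≤
      d (σ (i + 1)) := by
    refine le_trans (card_le_card_of_injOn (fun j => σ (j + 1)) ?_ ?_) (hd _)
    · intro j hj
      simp only [coe_filter, mem_range, Set.mem_setOf_eq] at hj ⊢
      exact ⟨h1 _ hj.2.1, hj.2.2⟩
    · intro a ha b hb e
      simp only [coe_filter, mem_range, Set.mem_setOf_eq] at ha hb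
      have := h2 _ ha.2.1 _ hb.2.1 e
      omega
  obtain ⟨j, hj, hj'⟩ : ∃ j ∈ range m, j ∉ insert i (((range m).filter fun j => C (σ i) (σ j)) ∪
      ((range m).filter fun j => j + 1 < m ∧ C (σ (i + 1)) (σ (j + 1)))) := by
    refine exists_mem_notMem_of_card_lt_card ?_
    have := h3 i hi hc
    have := card_insert_le i (((range m).filter fun j => C (σ i) (σ j)) ∪
      ((range m).filter fun j => j + 1 < m ∧ C (σ (i + 1)) (σ (j + 1))))
    have := card_union_le ((range m).filter fun j => C (σ i) (σ j))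
      ((range m).filter fun j => j + 1 < m ∧ C (σ (i + 1)) (σ (j + 1)))
    rw [card_range]
    omega
  simp only [mem_insert, mem_union, mem_filter, hj, true_and, not_or, not_and] at hj'
  rw [mem_range] at hj
  obtain ⟨j1, j2, j3⟩ := hj'
  obtain ⟨lo, hi', l1, l2, l3, g1, g2⟩ : ∃ lo hi, lo < hi ∧ hi < m ∧ (i = lo ∨ i = hi) ∧
      ¬ C (σ lo) (σ hi) ∧ (hi + 1 < m → ¬ C (σ (lo + 1)) (σ (hi + 1))) := by
    rcases lt_or_gt_of_ne j1 with h | h
    · exact ⟨j, i, h, by omega, Or.inr rfl, fun c => j2 (sy _ _ c),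
        fun _ c => j3 (by omega) (sy _ _ c)⟩
    · exact ⟨i, j, h, hj, Or.inl rfl, j2, j3⟩
  let ρ : ℕ → ℕ := fun p => if lo < p ∧ p ≤ hi' then lo + hi' + 1 - p else p
  let ψ : ℕ → ℕ := fun p => if lo < p ∧ p < hi' then lo + hi' - p else p
  have key : ∀ p, p + 1 < m → C (σ (ρ p)) (σ (ρ (p + 1))) → p ≠ lo ∧ p ≠ hi' ∧ ψ p + 1 < m ∧
      C (σ (ψ p)) (σ (ψ p + 1)) ∧
      d (σ (ρ p)) + d (σ (ρ (p + 1))) = d (σ (ψ p)) + d (σ (ψ p + 1)) := by
    intro p hp c
    by_cases e1 : p = lo
    · subst e1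
      have a : ρ p = p := by simp [ρ]
      have b : ρ (p + 1) = hi' := by simp only [ρ]; rw [if_pos (by omega)]; omega
      rw [a, b] at c
      exact absurd c g1
    by_cases e2 : p = hi'
    · subst e2
      have a : ρ p = lo + 1 := by simp only [ρ]; rw [if_pos (by omega)]; omega
      have b : ρ (p + 1) = p + 1 := by simp [ρ]
      rw [a, b] at c
      exact absurd c (g2 hp)
    by_cases e3 : lo < p ∧ p < hi'
    · have a : ρ p = ψ p + 1 := by
        simp only [ρ, ψ]; rw [if_pos (by omega), if_pos e3]; omega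
      have b : ρ (p + 1) = ψ p := by
        simp only [ρ, ψ]; rw [if_pos (by omega), if_pos e3]; omega
      have c' : ψ p + 1 < m := by simp only [ψ]; rw [if_pos e3]; omega
      rw [a, b] at c ⊢
      exact ⟨e1, e2, c', sy _ _ c, add_comm _ _⟩
    · have a : ρ p = p := by simp only [ρ]; rw [if_neg (by omega)]
      have b : ρ (p + 1) = p + 1 := by simp only [ρ]; rw [if_neg (by omega)]
      have c' : ψ p = p := by simp only [ψ]; rw [if_neg e3]
      rw [a, b] at c ⊢
      rw [c']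
      exact ⟨e1, e2, hp, c, rfl⟩
  have r1 : ∀ p < m, ρ p < m := fun p hp => by simp only [ρ]; split_ifs <;> omega
  refine Exists.elim (ih _ ?_ (σ ∘ ρ) (fun p hp => h1 _ (r1 p hp)) (fun p hp q hq e => by
    have := h2 _ (r1 p hp) _ (r1 q hq) e
    simp only [ρ] at this
    split_ifs at this <;> omega) (fun p hp c => by
    obtain ⟨-, -, a, b, e⟩ := key p hp c
    have := h3 _ a b
    simp only [Function.comp]
    omega) rfl) fun σ' ⟨s1, s2⟩ => ?_
  rotate_right
  · exact ⟨σ', by rw [s1]; simp [ρ], s2⟩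
  · rw [← hk]
    refine lt_of_le_of_lt (card_le_card_of_injOn (t := ((range (m - 1)).filter
      fun p => C (σ p) (σ (p + 1))).erase i) ψ ?_ ?_) (card_erase_lt_of_mem ?_)
    · intro p hp
      simp only [coe_filter, mem_range, Set.mem_setOf_eq, Function.comp] at hp
      obtain ⟨a, b, c, e, -⟩ := key p (by omega) hp.2
      simp only [coe_erase, coe_filter, mem_range, Set.mem_diff, Set.mem_setOf_eq,
        Set.mem_singleton_iff]
      refine ⟨⟨by omega, e⟩, ?_⟩
      simp only [ψ]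
      split_ifs <;> omega
    · intro a _ b _ e
      simp only [ψ] at e
      split_ifs at e <;> omega
    · simp only [mem_filter, mem_range]
      exact ⟨by omega, hc⟩

open Classical in
theorem ore' (m : ℕ) (C : ℕ → ℕ → Prop) (sy : ∀ x y, C x y → C y x) (ir : ∀ x, ¬ C x x)
    (d : ℕ → ℕ) (hd : ∀ x, ((range m).filter (C x)).card ≤ d x)
    (h : ∀ p, p + 1 < m → C p (p + 1) → d p + d (p + 1) + 2 ≤ m) :
    ∃ τ : ℕ → ℕ, (∀ x < m, τ x < m) ∧ (∀ x < m, τ x = 0 → x = 0) ∧
      (∀ x < m, ∀ y < m, τ x = τ y → x = y) ∧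
      ∀ x < m, ∀ y < m, C x y → τ x + 2 ≤ τ y ∨ τ y + 2 ≤ τ x := by
  obtain ⟨σ, s0, s1, s2, s3⟩ := ore m C sy d hd _ id (fun _ h => h) (fun _ _ _ _ h => h) h rfl
  have : ∀ x < m, ∃ p < m, σ p = x := by
    intro x hx
    have := surj_on_of_inj_on_of_card_le (s := range m) (t := range m) (fun p _ => σ p)
      (fun p hp => mem_range.2 (s1 p (mem_range.1 hp)))
      (fun a b ha hb e => s2 a (mem_range.1 ha) b (mem_range.1 hb) e) le_rfl x (mem_range.2 hx)
    obtain ⟨p, hp, e⟩ := this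
    exact ⟨p, mem_range.1 hp, e.symm⟩
  choose! τ t1 t2 using this
  refine ⟨τ, t1, fun x hx e => ?_, fun x hx y hy e => ?_, fun x hx y hy c => ?_⟩
  · rw [← t2 x hx, e, s0]; rfl
  · rw [← t2 x hx, e, t2 y hy]
  · by_contra hc
    have : τ x = τ y ∨ τ x + 1 = τ y ∨ τ y + 1 = τ x := by omega
    rcases this with e | e | e
    · refine ir x ?_
      rwa [← t2 y hy, ← e, t2 x hx] at c
    · refine s3 (τ x) (e ▸ t1 y hy) ?_
      rwa [e, t2 x hx, t2 y hy]
    · refine s3 (τ y) (e ▸ t1 x hx) ?_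
      rw [e, t2 x hx, t2 y hy]
      exact sy _ _ c

variable {V : Type} {G : SimpleGraph V}

theorem mkLL (a b : V → ℕ) (c : ℕ) (h1 : ∀ u v, G.Adj u v → a u + 2 ≤ a v ∨ a v + 2 ≤ a u)
    (h2 : ∀ u v, G.Adj u v → a u + 2 ≤ b v ∨ b v + 2 ≤ a u)
    (h3 : ∀ v, c + 2 ≤ b v ∨ b v + 2 ≤ c) (h4 : ∀ v, a v ≠ c)
    (h5 : ∀ u v x, u ≠ v → G.Adj u x → G.Adj x v → a u ≠ a v)
    (h6 : ∀ u v x, G.Adj u x → G.Adj x v → a u ≠ b v) (h7 : Function.Injective b) :
    LL (Myc G) fun x => x.elim c (Sum.elim a b) := by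
  constructor
  · rintro (_ | u | u) (_ | v | v) h <;> simp only [Myc] at h <;>
      simp only [Option.elim, Sum.elim_inl, Sum.elim_inr]
    · exact h3 v
    · exact h1 u v h
    · exact h2 u v h
    · exact (h3 u).symm
    · exact (h2 v u h.symm).symm
  · rintro (_ | u | u) (_ | v | v) (_ | x | x) hne h h' <;> simp only [Myc] at h h' <;>
      simp only [Option.elim, Sum.elim_inl, Sum.elim_inr]
    · exact absurd rfl hne
    · exact (h4 v).symm
    · exact h4 u
    · exact h5 u v x (fun e => hne (e ▸ rfl)) h h'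
    · exact h5 u v x (fun e => hne (e ▸ rfl)) h h'
    · exact h6 u v x h h'
    · exact (h6 v u x h'.symm h.symm).symm
    · exact fun e => hne (h7 e ▸ rfl)
    · exact fun e => hne (h7 e ▸ rfl)

theorem idx (V : Type) [Fintype V] :
    ∃ ι : V → ℕ, Function.Injective ι ∧ ∀ v, ι v < Fintype.card V :=
  ⟨fun v => Fintype.equivFin V v, fun _ _ h => (Fintype.equivFin V).injective (Fin.ext h),
    fun v => (Fintype.equivFin V v).2⟩

theorem step [Fintype V] {f : V → ℕ} {k : ℕ} (h : LL G f) (hk : ∀ v, f v ≤ k) :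
    ∃ g, LL (Myc G) g ∧ ∀ x, g x ≤ k + Fintype.card V + 1 := by
  classical
  obtain ⟨ι, i1, i2⟩ := idx V
  obtain ⟨b, b1, b2, b3⟩ : ∃ b : V → ℕ, Function.Injective b ∧ (∀ v, b v < Fintype.card V) ∧
      ∀ u v, G.Adj u v → f u = 0 → b v + 1 < Fintype.card V := by
    by_cases h0 : ∃ j, f j = 0
    · obtain ⟨j, hj⟩ := h0
      by_cases h1 : ∃ z, ι z + 1 = Fintype.card V
      · obtain ⟨z, hz⟩ := h1
        refine ⟨ι ∘ Equiv.swap j z, i1.comp (Equiv.injective _), fun v => i2 _, fun u v a e => ?_⟩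
        have : v ≠ j := by
          rintro rfl
          have := h.1 u v a
          omega
        have := i2 (Equiv.swap j z v)
        have : ι (Equiv.swap j z v) ≠ ι z := fun e =>
          ‹v ≠ j› (by simpa [Equiv.swap_apply_eq_iff] using i1 e)
        simp only [Function.comp]
        omega
      · refine ⟨ι, i1, i2, fun u v _ _ => ?_⟩
        have := i2 v
        have : ι v + 1 ≠ Fintype.card V := fun e => h1 ⟨v, e⟩
        omega
    · exact ⟨ι, i1, i2, fun u v _ e => absurd ⟨u, e⟩ h0⟩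
  refine ⟨_, mkLL (fun v => f v + Fintype.card V) b (k + Fintype.card V + 1)
    (fun u v a => by have := h.1 u v a; omega) (fun u v a => ?_)
    (fun v => by have := b2 v; omega) (fun v => by have := hk v; omega)
    (fun u v x n a a' => by have := h.2 u v x n a a'; omega)
    (fun u v x _ _ => by have := b2 v; omega) b1, ?_⟩
  · have := b2 v
    have := b3 u v a
    omega
  · rintro (_ | v | v) <;> simp only [Option.elim, Sum.elim_inl, Sum.elim_inr]
    · rfl
    · have := hk v; omega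
    · have := b2 v; omega

variable [Fintype V] [DecidableRel G.Adj]

theorem small (hD : G.maxDegree ≤ 1) :
    ∃ g, LL (Myc G) g ∧ ∀ x, g x ≤ Fintype.card V + 1 + G.maxDegree ^ 2 := by
  classical
  obtain ⟨ι, i1, i2⟩ := idx V
  have un : ∀ u v x, G.Adj x u → G.Adj x v → u = v := fun u v x a b => by
    have := (G.degree_le_maxDegree x).trans hD
    rw [← SimpleGraph.card_neighborFinset_eq_degree, card_le_one] at this
    exact this u (by simpa) v (by simpa)
  have k : ∀ u v, G.Adj u v → (ι v < ι u ∧ ∃ j, G.Adj u j ∧ ι j < ι u) ∨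
      (ι u < ι v ∧ ¬ ∃ j, G.Adj u j ∧ ι j < ι u) := fun u v a => by
    rcases lt_or_gt_of_ne (i1.ne a.ne) with h | h
    · exact Or.inr ⟨h, fun ⟨j, b, c⟩ => by have := un _ _ _ a b; subst this; omega⟩
    · exact Or.inl ⟨h, v, a, h⟩
  refine ⟨_, mkLL (fun u => if ∃ j, G.Adj u j ∧ ι j < ι u then Fintype.card V + 2 else 1)
    (fun v => ι v + 2) 0 (fun u v a => ?_) (fun u v a => ?_) (fun v => by omega)
    (fun v => by split_ifs <;> omega) (fun u v x n a a' => absurd (un _ _ _ a.symm a') n)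
    (fun u v x _ _ => by have := i2 v; split_ifs <;> omega) (fun a b e => i1 (by simpa using e)), ?_⟩
  · have := i2 u
    rcases k u v a with ⟨h, h'⟩ | ⟨h, h'⟩ <;> rcases k v u a.symm with ⟨j, j'⟩ | ⟨j, j'⟩ <;>
      simp only [h', j', if_true, if_false] <;> omega
  · have := i2 u
    rcases k u v a with ⟨h, h'⟩ | ⟨h, h'⟩ <;> simp only [h', if_true, if_false] <;> omega
  · rintro (_ | v | v) <;> simp only [Option.elim, Sum.elim_inl, Sum.elim_inr]
    · omega
    · split_ifs with h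
      · obtain ⟨j, a, -⟩ := h
        have := (G.degree_pos_iff_exists_adj v).2 ⟨j, a⟩
        have := G.degree_le_maxDegree v
        nlinarith
      · omega
    · have := i2 v; omega

def Far (G : SimpleGraph V) (a k : V) : Prop := ¬ G.Adj a k ∧ ¬ ∃ c, G.Adj a c ∧ G.Adj c k

open Classical in
theorem far_card (v : V) :
    Fintype.card V - (G.maxDegree ^ 2 + 1) ≤ (univ.filter (Far G v)).card := by
  have h1 : (univ.filter fun k => ¬ Far G v k) ⊆
      insert v ((G.neighborFinset v).biUnion fun x => insert x ((G.neighborFinset x).erase v)) := by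
    intro k hk
    simp only [Far, mem_filter, mem_univ, true_and, not_and_or, not_not] at hk
    simp only [mem_insert, mem_biUnion, SimpleGraph.mem_neighborFinset, mem_erase]
    by_cases e : k = v
    · exact Or.inl e
    rcases hk with h | ⟨c, h, h'⟩
    · exact Or.inr ⟨k, h, Or.inl rfl⟩
    · exact Or.inr ⟨c, h, Or.inr ⟨e, h'⟩⟩
  have h2 := card_biUnion_le_card_mul (G.neighborFinset v)
    (fun x => insert x ((G.neighborFinset x).erase v)) G.maxDegree fun x hx => by
      have := card_insert_le x ((G.neighborFinset x).erase v)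
      have m : v ∈ G.neighborFinset x := by simpa [G.adj_comm] using hx
      have := card_erase_add_one m
      have := G.degree_le_maxDegree x
      rw [← SimpleGraph.card_neighborFinset_eq_degree] at this
      omega
  have h3 := (card_le_card h1).trans (card_insert_le _ _)
  have h4 := card_filter_add_card_filter_not (s := univ) (Far G v)
  have h5 := G.degree_le_maxDegree v
  rw [SimpleGraph.card_neighborFinset_eq_degree] at h2
  have : G.degree v * G.maxDegree ≤ G.maxDegree ^ 2 := by nlinarith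
  rw [card_univ] at h4
  omega

theorem big (hD : 2 ≤ G.maxDegree) :
    ∃ g, LL (Myc G) g ∧ ∀ x, g x ≤ Fintype.card V + 1 + G.maxDegree ^ 2 := by
  classical
  obtain ⟨ι, i1, i2⟩ := idx V
  have fc := far_card (G := G)
  have dg := G.degree_le_maxDegree
  have hn : G.maxDegree < Fintype.card V := by
    rcases isEmpty_or_nonempty V with h | h
    · simp [SimpleGraph.maxDegree] at hD
    · exact G.maxDegree_lt_card_verts
  generalize G.maxDegree = D at *
  have q1 : 2 * D ≤ D ^ 2 := by nlinarith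
  generalize D ^ 2 = S at *
  generalize hN : Fintype.card V = n at *
  obtain ⟨π, p1, p2⟩ := (Fintype.all_card_le_filter_rel_iff_exists_injective
    (fun v k : V => 1 ≤ ι v ∧ ι v ≤ n - (S + 1) → Far G v k)).1 fun A => by
      by_cases h : ∃ v ∈ A, ¬ (1 ≤ ι v ∧ ι v ≤ n - (S + 1))
      · obtain ⟨v, hv, h⟩ := h
        refine card_le_card fun k _ => ?_
        simp only [mem_filter, mem_univ, true_and]
        exact ⟨v, hv, fun c => absurd c h⟩
      · push Not at h
        rcases A.eq_empty_or_nonempty with rfl | ⟨v, hv⟩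
        · simp
        have a : A.card ≤ (Icc 1 (n - (S + 1))).card :=
          card_le_card_of_injOn ι (fun x hx => by simpa using h x hx) i1.injOn
        rw [Nat.card_Icc] at a
        refine le_trans (by omega) ((fc v).trans (card_le_card fun k hk => ?_))
        simp only [mem_filter, mem_univ, true_and] at hk ⊢
        exact ⟨v, hv, fun _ => hk⟩
  let e := Equiv.ofBijective π (Finite.injective_iff_bijective.1 p1)
  let pos : ℕ → ℕ := fun i => if i < S + 1 then 2 * i else S + 1 + i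
  let bp : ℕ → ℕ := fun i => if 1 ≤ i ∧ i ≤ n - (S + 1) then pos i else 2 * (i - (n - (S + 1))) + 1
  let α : V → ℕ := fun v => pos (ι v)
  let β : V → ℕ := fun k => bp (ι (e.symm k))
  have a1 : Function.Injective α := fun u v h => i1 (by
    simp only [α, pos] at h; split_ifs at h <;> omega)
  have a2 : Function.Injective β := fun u v h => e.symm.injective (i1 (by
    have := i2 (e.symm u); have := i2 (e.symm v)
    simp only [β, bp, pos] at h; split_ifs at h <;> omega))
  have a3 : ∀ v, α v < n + S + 1 := fun v => by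
    have := i2 v; simp only [α, pos]; split_ifs <;> omega
  have a4 : ∀ v, β v < n + S + 1 ∧ β v ≠ 0 := fun v => by
    have := i2 (e.symm v); simp only [β, bp, pos]; split_ifs <;> omega
  have a5 : ∀ v k, α v = β k → Far G v k := fun v k h => by
    have := i2 (e.symm k); have := i2 v
    have k1 : ι v = ι (e.symm k) ∧ 1 ≤ ι v ∧ ι v ≤ n - (S + 1) := by
      simp only [α, β, bp, pos] at h; split_ifs at h <;> omega
    have : π v = k := by rw [i1 k1.1]; exact e.apply_symm_apply k
    exact this ▸ p2 v k1.2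
  let C : ℕ → ℕ → Prop := fun p q => ∃ a b, G.Adj a b ∧
    ((α a = p ∧ α b = q) ∨ (α a = p ∧ β b = q) ∨ (β a = p ∧ α b = q))
  refine Exists.elim (ore' (n + S + 1) C ?_ ?_
    (fun p => (if ∃ a, α a = p then 2 * D else 0) + if ∃ a, β a = p then D else 0) ?_ ?_)
    fun τ ⟨t1, t2, t3, t4⟩ => ?_
  rotate_right
  · refine ⟨_, mkLL (fun v => τ (α v) + 1) (fun v => τ (β v) + 1) 0 (fun u v a => ?_)
      (fun u v a => ?_) (fun v => ?_) (fun v => by omega) (fun u v x n _ _ h => ?_)
      (fun u v x a b h => ?_) (fun u v h => ?_), ?_⟩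
    · have := t4 _ (a3 u) _ (a3 v) ⟨u, v, a, Or.inl ⟨rfl, rfl⟩⟩
      omega
    · have := t4 _ (a3 u) _ (a4 v).1 ⟨u, v, a, Or.inr (Or.inl ⟨rfl, rfl⟩)⟩
      omega
    · have := mt (t2 _ (a4 v).1) (a4 v).2
      omega
    · exact n (a1 (t3 _ (a3 u) _ (a3 v) (by omega)))
    · exact (a5 u v (t3 _ (a3 u) _ (a4 v).1 (by omega))).2 ⟨x, a, b⟩
    · exact a2 (t3 _ (a4 u).1 _ (a4 v).1 (by simpa using h))
    · rintro (_ | v | v) <;> simp only [Option.elim, Sum.elim_inl, Sum.elim_inr]
      · omega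
      · have := t1 _ (a3 v); omega
      · have := t1 _ (a4 v).1; omega
  · rintro x y ⟨a, b, h, h' | h' | h'⟩
    · exact ⟨b, a, h.symm, Or.inl h'.symm⟩
    · exact ⟨b, a, h.symm, Or.inr (Or.inr h'.symm)⟩
    · exact ⟨b, a, h.symm, Or.inr (Or.inl h'.symm)⟩
  · rintro x ⟨a, b, h, h' | h' | h'⟩
    · exact h.ne (a1 (h'.1.trans h'.2.symm))
    · exact (a5 a b (h'.1.trans h'.2.symm)).1 h
    · exact (a5 b a (h'.2.trans h'.1.symm)).1 h.symm
  · intro p
    have g : ∀ (γ δ : V → ℕ), Function.Injective γ →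
        ((range (n + S + 1)).filter fun q => ∃ a b, G.Adj a b ∧ γ a = p ∧ δ b = q).card ≤
          if ∃ a, γ a = p then D else 0 := by
      intro γ δ hγ
      split_ifs with h
      · obtain ⟨a, rfl⟩ := h
        refine le_trans (card_le_card (t := (G.neighborFinset a).image δ) ?_)
          (card_image_le.trans (dg a))
        intro q hq
        obtain ⟨-, a', b, h1, h2, h3⟩ := mem_filter.1 hq
        exact mem_image.2 ⟨b, by simpa [← hγ h2] using h1, h3⟩
      · rw [Nat.le_zero, card_eq_zero, filter_eq_empty_iff]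
        rintro q - ⟨a, b, -, h2, -⟩
        exact h ⟨a, h2⟩
    have g1 := g α α a1
    have g2 := g α β a1
    have g3 := g β α a2
    refine le_trans (card_le_card (t := _ ∪ _ ∪ _) ?_) ((card_union_le _ _).trans
      (add_le_add ((card_union_le _ _).trans ((add_le_add g1 g2).trans ?_)) g3))
    · intro q hq
      simp only [mem_union, mem_filter] at hq ⊢
      obtain ⟨h0, a, b, h, h' | h' | h'⟩ := hq
      · exact Or.inl (Or.inl ⟨h0, a, b, h, h'⟩)
      · exact Or.inl (Or.inr ⟨h0, a, b, h, h'⟩)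
      · exact Or.inr ⟨h0, a, b, h, h'⟩
    · split_ifs <;> omega
  · intro p hp _
    have c1 : ∀ p, (∃ a, α a = p) → (p < 2 * (S + 1) ∧ p % 2 = 0) ∨ (2 * (S + 1) ≤ p) := by
      rintro _ ⟨a, rfl⟩
      simp only [α, pos]; split_ifs <;> omega
    have c2 : ∀ p, (∃ a, β a = p) → (p < 2 * (S + 1) ∧ p % 2 = 1) ∨
        (p % 2 = 0 ∧ 2 ≤ p ∧ p ≤ 2 * (n - (S + 1))) ∨ 2 * (S + 1) ≤ n := by
      rintro _ ⟨a, rfl⟩
      have := i2 (e.symm a)
      simp only [β, bp, pos]; split_ifs <;> omega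
    have h1 := c1 p; have h2 := c1 (p + 1); have h3 := c2 p; have h4 := c2 (p + 1)
    clear c1 c2 a3 a4 a5
    split_ifs with k1 k2 k3 k4 <;> (try replace h1 := h1 ‹_›) <;> (try replace h2 := h2 ‹_›) <;>
      (try replace h3 := h3 ‹_›) <;> (try replace h4 := h4 ‹_›) <;> omega

theorem fin_MT (V : Type) [Fintype V] (t : ℕ) :
    ∃ _ : Fintype (MT t V), Fintype.card (MT t V) + 1 = 2 ^ t * (Fintype.card V + 1) := by
  induction t with
  | zero => exact ⟨‹_›, by simp [MT]⟩
  | succ t ih =>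
    obtain ⟨i, h⟩ := ih
    refine ⟨inferInstanceAs (Fintype (Option (MT t V ⊕ MT t V))), ?_⟩
    change Fintype.card (Option (MT t V ⊕ MT t V)) + 1 = _
    rw [Fintype.card_option, Fintype.card_sum, pow_succ, mul_right_comm, ← h]
    ring

theorem result {V : Type} [Fintype V] (G : SimpleGraph V) [DecidableRel G.Adj] (t : ℕ)
    (ht : 1 ≤ t) : ∃ f : MT t V → ℕ, L21 (MycIt G t) f ∧
      ∀ x, f x ≤ (2 ^ t - 1) * (Fintype.card V + 1) + G.maxDegree ^ 2 := by
  suffices ∃ f : MT t V → ℕ, LL (MycIt G t) f ∧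
      ∀ x, f x ≤ (2 ^ t - 1) * (Fintype.card V + 1) + G.maxDegree ^ 2 by
    obtain ⟨f, h1, h2⟩ := this
    exact ⟨f, h1.l21, h2⟩
  induction t, ht using Nat.le_induction with
  | base =>
    rw [pow_one, show 2 - 1 = 1 from rfl, one_mul]
    rcases le_or_gt G.maxDegree 1 with h | h
    · exact small (G := G) h
    · exact big (G := G) h
  | succ t ht ih =>
    obtain ⟨f, h1, h2⟩ := ih
    obtain ⟨i, h⟩ := fin_MT V t
    obtain ⟨g, g1, g2⟩ := step h1 h2
    refine ⟨g, g1, fun x => (g2 x).trans (le_of_eq ?_)⟩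
    obtain ⟨c, hc⟩ : ∃ c, 2 ^ t = c + 1 := ⟨2 ^ t - 1, by have := Nat.one_le_two_pow (n := t); omega⟩
    rw [add_assoc, h, pow_succ 2 t, hc, show (c + 1) * 2 - 1 = 2 * c + 1 by omega,
      Nat.add_sub_cancel]
    ring

end Pool.Agent.Results.MP_f0917b_co.Full
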